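import Pool.Agent.W_4d259d_h44.FinG

/-!
# MP_4d259d_ag, Q1: rationally connected manifolds are Oka-1

Full positive answer: every complex manifold with a complete distance in which any two points lie
on one rational curve is Oka-1; in particular every rationally connected projective manifold
(compact, so complete for every distance inducing the topology).
-/

noncomputable section

namespace Pool.Agent.Results.MP_4d259d_ag.RationallyConnected

open scoped ContDiff
open Pool.Agent.W_4d259d_h46.Defs Pool.Agent.W_4d259d_h44

theorem result (E : Type) [NormedAddCommGroup E] [NormedSpace ℂ E] [FiniteDimensional ℂ E]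
    (X : Type) [MetricSpace X] [CompleteSpace X] [SecondCountableTopology X] [ChartedSpace E X]
    [IsManifold (modelWithCornersSelf ℂ E) ω X] (h : RatConn E X) : IsOkaOneMan E X :=
  isOkaOneMan_of_ratConn E X h

end Pool.Agent.Results.MP_4d259d_ag.RationallyConnected
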